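import Pool.Agent.Helper112.PairSieve
import Pool.Agent.Helper601.BT
import Pool.Agent.Erdos456.Mertens

set_option autoImplicit false

/-! Upper bound for the second moment of the reciprocal distances over the primes. -/

namespace Pool.Agent.H362R2.FS

open Finset

/-- the primes `q < p` with `2^l ≤ p - q < 2^(l+1)` -/
def S (l p : ℕ) : Finset ℕ :=
  ((range p).filter Nat.Prime).filter (fun q => Nat.log 2 (p - q) = l)

noncomputable def b (l p : ℕ) : ℝ := ∑ q ∈ S l p, (1 : ℝ) / ((p : ℝ) - q)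

theorem mem_S {l p q : ℕ} (h : q ∈ S l p) : q < p ∧ q.Prime ∧ 2 ^ l ≤ p - q ∧ p - q < 2 ^ (l + 1) := by
  unfold S at h
  simp only [mem_filter, mem_range] at h
  obtain ⟨⟨h1, h2⟩, h3⟩ := h
  refine ⟨h1, h2, ?_, ?_⟩
  · have := Nat.pow_log_le_self 2 (x := p - q) (by omega)
    rwa [h3] at this
  · have := Nat.lt_pow_succ_log_self (b := 2) (by norm_num) (p - q)
    rwa [h3] at this

theorem term_le {l p q : ℕ} (h : q ∈ S l p) : (1 : ℝ) / ((p : ℝ) - q) ≤ 1 / 2 ^ l := by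
  obtain ⟨h1, _, h3, _⟩ := mem_S h
  have e : ((p : ℝ) - q) = ((p - q : ℕ) : ℝ) := by rw [Nat.cast_sub h1.le]
  rw [e]
  apply one_div_le_one_div_of_le (by positivity)
  exact_mod_cast h3

theorem b_nonneg (l p : ℕ) : 0 ≤ b l p := by
  unfold b
  apply Finset.sum_nonneg
  intro q hq
  have h1 := (mem_S hq).1
  have : (q : ℝ) < p := by exact_mod_cast h1
  apply div_nonneg (by norm_num)
  linarith

theorem b_card (l p : ℕ) : b l p ≤ ((S l p).card : ℝ) * (1 / 2 ^ l) := by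
  unfold b
  rw [← nsmul_eq_mul]
  exact Finset.sum_le_card_nsmul _ _ _ (fun q hq => term_le hq)

theorem f_eq (p x : ℕ) (hp : p < x) :
    ∑ q ∈ (range p).filter Nat.Prime, (1 : ℝ) / ((p : ℝ) - q) =
      ∑ l ∈ range (Nat.log 2 x + 1), b l p := by
  unfold b S
  rw [Finset.sum_fiberwise_of_maps_to]
  intro q hq
  rw [mem_range]
  have : Nat.log 2 (p - q) ≤ Nat.log 2 x := Nat.log_mono_right (by omega)
  omega

theorem b_sup : ∃ B : ℝ, 1 ≤ B ∧ ∀ l p : ℕ, b l p ≤ B / ((l : ℝ) + 1) := by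
  obtain ⟨C, hC1, hC⟩ := Pool.Agent.Helper601.brun_titchmarsh
  refine ⟨4 * C, by linarith, fun l p => ?_⟩
  have hl2 : (1 / 2 : ℝ) ≤ Real.log 2 := by
    have := Real.log_two_gt_d9
    linarith
  rcases Nat.eq_zero_or_pos l with h0 | h0
  · subst h0
    have hc : (S 0 p).card ≤ 1 := by
      rw [Finset.card_le_one]
      intro q hq q' hq'
      have h1 := mem_S hq
      have h2 := mem_S hq'
      norm_num at h1 h2
      omega
    have hc' : ((S 0 p).card : ℝ) ≤ 1 := by exact_mod_cast hc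
    have := b_card 0 p
    norm_num at this ⊢
    linarith
  · have hc : (S l p).card ≤
        ((range (2 ^ l)).filter (fun k => ((p + 1 - 2 ^ (l + 1)) + k * 1).Prime)).card := by
      apply Finset.card_le_card_of_injOn (fun q => q - (p + 1 - 2 ^ (l + 1)))
      · intro q hq
        have h1 := mem_S hq
        obtain ⟨a1, a2, a3, a4⟩ := h1
        simp only [coe_filter, mem_range]
        have hpow : 2 ^ (l + 1) = 2 * 2 ^ l := by ring
        have e : (p + 1 - 2 ^ (l + 1)) + (q - (p + 1 - 2 ^ (l + 1))) * 1 = q := by omega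
        refine ⟨by omega, ?_⟩
        rw [e]
        exact a2
      · intro q hq q' hq' hqq
        have h1 := mem_S hq
        have h2 := mem_S hq'
        obtain ⟨a1, a2, a3, a4⟩ := h1
        obtain ⟨c1, c2, c3, c4⟩ := h2
        simp only at hqq
        omega
    have h2l : 2 ≤ 2 ^ l := by
      calc 2 = 2 ^ 1 := by norm_num
        _ ≤ 2 ^ l := Nat.pow_le_pow_right (by norm_num) h0
    have hbt := hC (p + 1 - 2 ^ (l + 1)) 1 (2 ^ l) h2l (Or.inl rfl)
    have hcard : ((S l p).card : ℝ) ≤ C * (2 ^ l : ℝ) / ((l : ℝ) * Real.log 2) := by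
      refine le_trans (by exact_mod_cast hc) (hbt.trans (le_of_eq ?_))
      push_cast
      rw [Real.log_pow]
    have hl0 : (1 : ℝ) ≤ l := by exact_mod_cast h0
    have hb := b_card l p
    have h2pos : (0 : ℝ) < 2 ^ l := by positivity
    calc b l p ≤ ((S l p).card : ℝ) * (1 / 2 ^ l) := hb
      _ ≤ (C * (2 ^ l : ℝ) / ((l : ℝ) * Real.log 2)) * (1 / 2 ^ l) :=
          mul_le_mul_of_nonneg_right hcard (by positivity)
      _ = C / ((l : ℝ) * Real.log 2) := by
          field_simp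
      _ ≤ 4 * C / ((l : ℝ) + 1) := by
          rw [div_le_div_iff₀ (by positivity) (by positivity)]
          have h7 : (l : ℝ) * (1 / 2) ≤ (l : ℝ) * Real.log 2 :=
            mul_le_mul_of_nonneg_left hl2 (by linarith)
          have h8 : (l : ℝ) + 1 ≤ 4 * ((l : ℝ) * Real.log 2) := by linarith
          have h9 := mul_le_mul_of_nonneg_left h8 (by linarith : (0 : ℝ) ≤ C)
          linarith

theorem b_mean : ∃ C : ℝ, 0 < C ∧ ∀ x : ℕ, 2 ≤ x → ∀ l : ℕ,
    ∑ p ∈ (range x).filter Nat.Prime, b l p ≤ C * x / (Real.log x) ^ 2 := by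
  classical
  obtain ⟨C1, hC1, hs⟩ := Pool.Agent.Helper112.E456.sieve_two
  obtain ⟨C2, hC2⟩ := Pool.Agent.Erdos456.Mert.totRatio_moment
  have hC20 : 1 ≤ C2 := by
    have := hC2 1
    simp only [Icc_self, sum_singleton, Nat.cast_one, Nat.totient_one] at this
    norm_num at this
    linarith
  have hG : ∀ N : ℕ, ∑ n ∈ Icc 1 N, ((n : ℝ) / (Nat.totient n : ℝ)) ^ 2 ≤ C2 * N := by
    intro N
    refine le_trans (sum_le_sum fun n hn => ?_) (hC2 N)
    have h1 : 1 ≤ (n : ℝ) / (Nat.totient n : ℝ) := by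
      have hn1 := (mem_Icc.mp hn).1
      have h1 : (0 : ℝ) < Nat.totient n := by exact_mod_cast Nat.totient_pos.mpr hn1
      rw [le_div_iff₀ h1, one_mul]
      exact_mod_cast Nat.totient_le n
    exact pow_le_pow_right₀ h1 (by norm_num)
  refine ⟨2 * C1 * C2, by positivity, fun x hx l => ?_⟩
  have hx2 : (2 : ℝ) ≤ x := by exact_mod_cast hx
  have hL : 0 < Real.log x := Real.log_pos (by linarith)
  set T : ℕ → Finset ℕ := fun d =>
    (Icc 1 x).filter (fun n => (1 * n + 0).Prime ∧ (1 * n + d).Prime) with hT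
  have hcard : ∑ p ∈ (range x).filter Nat.Prime, (S l p).card ≤
      ∑ d ∈ Icc 1 (2 ^ (l + 1)), (T d).card := by
    rw [← Finset.card_sigma, ← Finset.card_sigma]
    apply Finset.card_le_card_of_injOn (fun t : (_ : ℕ) × ℕ => ⟨t.1 - t.2, t.2⟩)
    · rintro ⟨p, q⟩ ht
      simp only [mem_coe, mem_sigma, mem_filter, mem_range] at ht
      obtain ⟨⟨h1, h2⟩, h3⟩ := ht
      obtain ⟨a1, a2, a3, a4⟩ := mem_S h3
      simp only [mem_coe, mem_sigma, mem_Icc, hT, mem_filter]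
      have e1 : 1 * q + 0 = q := by omega
      have e2 : 1 * q + (p - q) = p := by omega
      rw [e1, e2]
      exact ⟨⟨by omega, a4.le⟩, ⟨⟨a2.one_lt.le, by omega⟩, a2, h2⟩⟩
    · rintro ⟨p, q⟩ ht ⟨p', q'⟩ ht' he
      simp only [mem_coe, mem_sigma] at ht ht'
      have a := mem_S ht.2
      have a' := mem_S ht'.2
      simp only [Sigma.mk.injEq, heq_eq_eq] at he ⊢
      have h1 := a.1
      have h2 := a'.1
      obtain ⟨he1, he2⟩ := he
      constructor <;> omega
  have hT' : ∀ d ∈ Icc 1 (2 ^ (l + 1)), ((T d).card : ℝ) ≤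
      C1 * x / (Real.log x) ^ 2 * ((d : ℝ) / (Nat.totient d : ℝ)) ^ 2 := by
    intro d hd
    have hd1 := (mem_Icc.mp hd).1
    have h := hs 1 0 1 d x (by norm_num) (by norm_num) (by simp) (by simp) (by omega) hx
    have e : 1 * 1 * (((1 * d : ℕ) : ℤ) - ((1 * 0 : ℕ) : ℤ)).natAbs = d := by simp
    rw [e] at h
    refine h.trans (le_of_eq ?_)
    ring
  have h1 : ∑ p ∈ (range x).filter Nat.Prime, b l p ≤
      (∑ p ∈ (range x).filter Nat.Prime, ((S l p).card : ℝ)) * (1 / 2 ^ l) := by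
    rw [Finset.sum_mul]
    exact Finset.sum_le_sum (fun p _ => b_card l p)
  have h2 : (∑ p ∈ (range x).filter Nat.Prime, ((S l p).card : ℝ)) ≤
      C1 * x / (Real.log x) ^ 2 * (C2 * 2 ^ (l + 1)) := by
    calc (∑ p ∈ (range x).filter Nat.Prime, ((S l p).card : ℝ))
        ≤ ∑ d ∈ Icc (1 : ℕ) (2 ^ (l + 1)), ((T d).card : ℝ) := by exact_mod_cast hcard
      _ ≤ ∑ d ∈ Icc (1 : ℕ) (2 ^ (l + 1)),
            C1 * x / (Real.log x) ^ 2 * ((d : ℝ) / (Nat.totient d : ℝ)) ^ 2 :=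
          Finset.sum_le_sum hT'
      _ = C1 * x / (Real.log x) ^ 2 *
            ∑ d ∈ Icc (1 : ℕ) (2 ^ (l + 1)), ((d : ℝ) / (Nat.totient d : ℝ)) ^ 2 := by
          rw [Finset.mul_sum]
      _ ≤ C1 * x / (Real.log x) ^ 2 * (C2 * 2 ^ (l + 1)) := by
          apply mul_le_mul_of_nonneg_left _ (by positivity)
          have := hG (2 ^ (l + 1))
          push_cast at this
          exact this
  have h2pos : (0 : ℝ) < 2 ^ l := by positivity
  calc ∑ p ∈ (range x).filter Nat.Prime, b l p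
      ≤ (∑ p ∈ (range x).filter Nat.Prime, ((S l p).card : ℝ)) * (1 / 2 ^ l) := h1
    _ ≤ (C1 * x / (Real.log x) ^ 2 * (C2 * 2 ^ (l + 1))) * (1 / 2 ^ l) :=
        mul_le_mul_of_nonneg_right h2 (by positivity)
    _ = 2 * C1 * C2 * x / (Real.log x) ^ 2 := by
        have e2 : (2 : ℝ) ^ (l + 1) = 2 * 2 ^ l := by ring
        rw [e2]
        field_simp

/-- fourth root of `l + 1` -/
noncomputable def u (l : ℕ) : ℝ := Real.sqrt (Real.sqrt ((l : ℝ) + 1))

theorem u_pos (l : ℕ) : 0 < u l := by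
  unfold u
  positivity

theorem u_four (l : ℕ) : u l ^ 4 = (l : ℝ) + 1 := by
  unfold u
  have h1 : (0 : ℝ) ≤ (l : ℝ) + 1 := by positivity
  calc Real.sqrt (Real.sqrt ((l : ℝ) + 1)) ^ 4 = (Real.sqrt (Real.sqrt ((l : ℝ) + 1)) ^ 2) ^ 2 := by
        ring
    _ = (Real.sqrt ((l : ℝ) + 1)) ^ 2 := by rw [Real.sq_sqrt (Real.sqrt_nonneg _)]
    _ = (l : ℝ) + 1 := Real.sq_sqrt h1

theorem u_sum (n : ℕ) : ∑ l ∈ range (n + 1), 1 / u l ^ 3 ≤ 4 * u n := by
  induction n with
  | zero => simp [u]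
  | succ n ih =>
    rw [Finset.sum_range_succ]
    have h1 := u_four n
    have h2 := u_four (n + 1)
    have hp := u_pos n
    have hp1 := u_pos (n + 1)
    have hlt : u n < u (n + 1) := by
      by_contra hcon
      have h3 : u (n + 1) ^ 4 ≤ u n ^ 4 := pow_le_pow_left₀ hp1.le (not_lt.1 hcon) 4
      rw [h1, h2] at h3
      push_cast at h3
      linarith
    have h4 : 1 / u (n + 1) ^ 3 ≤ 4 * (u (n + 1) - u n) := by
      rw [div_le_iff₀ (by positivity)]
      have e : (u (n + 1) - u n) * (u (n + 1) ^ 3 + u (n + 1) ^ 2 * u n + u (n + 1) * u n ^ 2 +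
          u n ^ 3) = 1 := by
        have : (u (n + 1) - u n) * (u (n + 1) ^ 3 + u (n + 1) ^ 2 * u n + u (n + 1) * u n ^ 2 +
          u n ^ 3) = u (n + 1) ^ 4 - u n ^ 4 := by ring
        rw [this, h1, h2]
        push_cast
        ring
      have g1 : u n ≤ u (n + 1) := hlt.le
      have g2 : u (n + 1) ^ 2 * u n ≤ u (n + 1) ^ 3 := by
        calc u (n + 1) ^ 2 * u n ≤ u (n + 1) ^ 2 * u (n + 1) :=
              mul_le_mul_of_nonneg_left g1 (by positivity)
          _ = _ := by ring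
      have g3 : u (n + 1) * u n ^ 2 ≤ u (n + 1) ^ 3 := by
        calc u (n + 1) * u n ^ 2 ≤ u (n + 1) * u (n + 1) ^ 2 :=
              mul_le_mul_of_nonneg_left (pow_le_pow_left₀ hp.le g1 2) hp1.le
          _ = _ := by ring
      have g4 : u n ^ 3 ≤ u (n + 1) ^ 3 := pow_le_pow_left₀ hp.le g1 3
      have g5 : 0 ≤ u (n + 1) - u n := by linarith
      calc (1 : ℝ) = (u (n + 1) - u n) * (u (n + 1) ^ 3 + u (n + 1) ^ 2 * u n +
            u (n + 1) * u n ^ 2 + u n ^ 3) := e.symm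
        _ ≤ (u (n + 1) - u n) * (4 * u (n + 1) ^ 3) := by
            apply mul_le_mul_of_nonneg_left _ g5
            linarith
        _ = 4 * (u (n + 1) - u n) * u (n + 1) ^ 3 := by ring
    linarith

theorem upper : ∃ C : ℝ, 0 < C ∧ ∀ x : ℕ, 2 ≤ x →
    ∑ p ∈ (range x).filter Nat.Prime,
      (∑ q ∈ (range p).filter Nat.Prime, (1 : ℝ) / ((p : ℝ) - q)) ^ 4 ≤ C * x / Real.log x := by
  obtain ⟨B, hB1, hB⟩ := b_sup
  obtain ⟨C1, hC1, hm⟩ := b_mean
  refine ⟨1024 * B ^ 3 * C1, by positivity, fun x hx => ?_⟩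
  have hx2 : (2 : ℝ) ≤ x := by exact_mod_cast hx
  have hl2 : (1 / 2 : ℝ) ≤ Real.log 2 := by
    have := Real.log_two_gt_d9
    linarith
  have hL2 : Real.log 2 ≤ Real.log x := Real.log_le_log (by norm_num) hx2
  have hL : 0 < Real.log x := by linarith
  set Λ : ℕ := Nat.log 2 x + 1 with hΛ
  have hΛle : (Λ : ℝ) ≤ 4 * Real.log x := by
    have h1 : 2 ^ Nat.log 2 x ≤ x := Nat.pow_log_le_self 2 (by omega)
    have h2 : (2 : ℝ) ^ Nat.log 2 x ≤ x := by exact_mod_cast h1
    have h3 := Real.log_le_log (by positivity) h2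
    rw [Real.log_pow] at h3
    have h4 : (0 : ℝ) ≤ (Nat.log 2 x : ℝ) := Nat.cast_nonneg _
    rw [hΛ]
    push_cast
    nlinarith
  set A : ℝ := ∑ l ∈ range Λ, 1 / u l ^ 3 with hA
  have hA0 : 0 ≤ A := Finset.sum_nonneg (fun l _ => by have := u_pos l; positivity)
  have hA4 : A ^ 4 ≤ 256 * Λ := by
    have h1 : A ≤ 4 * u (Nat.log 2 x) := u_sum (Nat.log 2 x)
    have h2 : A ^ 4 ≤ (4 * u (Nat.log 2 x)) ^ 4 := pow_le_pow_left₀ hA0 h1 4
    have h3 : (4 * u (Nat.log 2 x)) ^ 4 = 256 * Λ := by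
      rw [mul_pow, u_four, hΛ]
      push_cast
      ring
    linarith
  have hp : ∀ p ∈ (range x).filter Nat.Prime,
      (∑ q ∈ (range p).filter Nat.Prime, (1 : ℝ) / ((p : ℝ) - q)) ^ 4 ≤
        A ^ 3 * ∑ l ∈ range Λ, (B ^ 3 / u l ^ 3) * b l p := by
    intro p hp
    rw [f_eq p x (mem_range.1 (mem_filter.1 hp).1)]
    have h1 := Finset.sum_sq_le_sum_mul_sum_of_sq_le_mul (range Λ)
      (r := fun l => b l p) (f := fun l : ℕ => 1 / u l ^ 3)
      (g := fun l : ℕ => u l ^ 3 * (b l p) ^ 2)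
      (fun l _ => by have := u_pos l; positivity) (fun l _ => by have := u_pos l; positivity)
      (fun l _ => by
        have := (u_pos l).ne'
        apply le_of_eq
        field_simp)
    have h2 := Finset.sum_sq_le_sum_mul_sum_of_sq_le_mul (range Λ)
      (r := fun l => u l ^ 3 * (b l p) ^ 2) (f := fun l : ℕ => 1 / u l ^ 3)
      (g := fun l : ℕ => u l ^ 9 * (b l p) ^ 4)
      (fun l _ => by have := u_pos l; positivity) (fun l _ => by have := u_pos l; positivity)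
      (fun l _ => by
        have := (u_pos l).ne'
        apply le_of_eq
        field_simp)
    have hS0 : 0 ≤ ∑ l ∈ range Λ, b l p := Finset.sum_nonneg (fun l _ => b_nonneg l p)
    have hS1 : 0 ≤ ∑ l ∈ range Λ, u l ^ 3 * (b l p) ^ 2 :=
      Finset.sum_nonneg (fun l _ => by have := u_pos l; positivity)
    have h3 : (∑ l ∈ range Λ, b l p) ^ 4 ≤
        A ^ 2 * (∑ l ∈ range Λ, u l ^ 3 * (b l p) ^ 2) ^ 2 := by
      calc (∑ l ∈ range Λ, b l p) ^ 4 = ((∑ l ∈ range Λ, b l p) ^ 2) ^ 2 := by ring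
        _ ≤ (A * ∑ l ∈ range Λ, u l ^ 3 * (b l p) ^ 2) ^ 2 :=
            pow_le_pow_left₀ (sq_nonneg _) h1 2
        _ = _ := by ring
    have h4 : ∑ l ∈ range Λ, u l ^ 9 * (b l p) ^ 4 ≤
        ∑ l ∈ range Λ, (B ^ 3 / u l ^ 3) * b l p := by
      refine Finset.sum_le_sum (fun l _ => ?_)
      have hu := u_pos l
      have hb := hB l p
      have hb0 := b_nonneg l p
      rw [← u_four l] at hb
      have hb3 : (b l p) ^ 3 ≤ (B / u l ^ 4) ^ 3 := pow_le_pow_left₀ hb0 hb 3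
      calc u l ^ 9 * (b l p) ^ 4 = u l ^ 9 * ((b l p) ^ 3 * b l p) := by ring
        _ ≤ u l ^ 9 * ((B / u l ^ 4) ^ 3 * b l p) :=
            mul_le_mul_of_nonneg_left (mul_le_mul_of_nonneg_right hb3 hb0) (by positivity)
        _ = (B ^ 3 / u l ^ 3) * b l p := by
            have := hu.ne'
            field_simp
    calc (∑ l ∈ range Λ, b l p) ^ 4 ≤ A ^ 2 * (∑ l ∈ range Λ, u l ^ 3 * (b l p) ^ 2) ^ 2 := h3
      _ ≤ A ^ 2 * (A * ∑ l ∈ range Λ, u l ^ 9 * (b l p) ^ 4) :=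
          mul_le_mul_of_nonneg_left h2 (by positivity)
      _ ≤ A ^ 2 * (A * ∑ l ∈ range Λ, (B ^ 3 / u l ^ 3) * b l p) := by
          apply mul_le_mul_of_nonneg_left _ (by positivity)
          exact mul_le_mul_of_nonneg_left h4 hA0
      _ = _ := by ring
  calc ∑ p ∈ (range x).filter Nat.Prime,
      (∑ q ∈ (range p).filter Nat.Prime, (1 : ℝ) / ((p : ℝ) - q)) ^ 4
      ≤ ∑ p ∈ (range x).filter Nat.Prime,
          A ^ 3 * ∑ l ∈ range Λ, (B ^ 3 / u l ^ 3) * b l p := Finset.sum_le_sum hp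
    _ = A ^ 3 * ∑ l ∈ range Λ, (B ^ 3 / u l ^ 3) *
          ∑ p ∈ (range x).filter Nat.Prime, b l p := by
        rw [← Finset.mul_sum, Finset.sum_comm]
        simp only [Finset.mul_sum]
    _ ≤ A ^ 3 * ∑ l ∈ range Λ, (B ^ 3 / u l ^ 3) * (C1 * x / (Real.log x) ^ 2) := by
        apply mul_le_mul_of_nonneg_left _ (by positivity)
        refine Finset.sum_le_sum (fun l _ => ?_)
        have hu := u_pos l
        exact mul_le_mul_of_nonneg_left (hm x hx l) (by positivity)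
    _ = A ^ 4 * (B ^ 3 * (C1 * x / (Real.log x) ^ 2)) := by
        have e3 : ∑ l ∈ range Λ, (B ^ 3 / u l ^ 3) * (C1 * x / (Real.log x) ^ 2) =
            A * (B ^ 3 * (C1 * x / (Real.log x) ^ 2)) := by
          rw [hA, Finset.sum_mul]
          refine Finset.sum_congr rfl (fun l _ => ?_)
          ring
        rw [e3]
        ring
    _ ≤ (256 * (4 * Real.log x)) * (B ^ 3 * (C1 * x / (Real.log x) ^ 2)) := by
        apply mul_le_mul_of_nonneg_right _ (by positivity)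
        linarith
    _ = 1024 * B ^ 3 * C1 * x / Real.log x := by
        field_simp
        ring

end Pool.Agent.H362R2.FS
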